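import Pool.Agent.Q4.ZO.Stm

/-!
# Project ZO, job ZO-NC: normal subgroups which contain a non-scalar sign change
-/

set_option autoImplicit false
set_option linter.unusedSectionVars false
set_option linter.unusedSimpArgs false

open Matrix

namespace Q150.ZO

open Q4.ZO

section forms

variable {R : Type} [CommRing R] {p q : ℕ} (d : Fin q → R)

theorem Bf_comm (v w : Ix p q → R) : Bf d v w = Bf d w v := by
  unfold Bf
  congr 1
  · exact Finset.sum_congr rfl fun i _ => by ring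
  · exact Finset.sum_congr rfl fun i _ => by ring

theorem Bf_add_left (v v' w : Ix p q → R) : Bf d (v + v') w = Bf d v w + Bf d v' w := by
  unfold Bf
  rw [add_add_add_comm, ← Finset.sum_add_distrib, ← Finset.sum_add_distrib]
  congr 1
  · exact Finset.sum_congr rfl fun i _ => by simp only [Pi.add_apply]; ring
  · exact Finset.sum_congr rfl fun i _ => by simp only [Pi.add_apply]; ring

theorem Bf_smul_left (c : R) (v w : Ix p q → R) : Bf d (c • v) w = c * Bf d v w := by
  unfold Bf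
  rw [mul_add, Finset.mul_sum, Finset.mul_sum]
  congr 1
  · exact Finset.sum_congr rfl fun i _ => by simp only [Pi.smul_apply, smul_eq_mul]; ring
  · exact Finset.sum_congr rfl fun i _ => by simp only [Pi.smul_apply, smul_eq_mul]; ring

theorem Bf_add_right (v w w' : Ix p q → R) : Bf d v (w + w') = Bf d v w + Bf d v w' := by
  rw [Bf_comm, Bf_add_left, Bf_comm d w, Bf_comm d w']

theorem Bf_smul_right (c : R) (v w : Ix p q → R) : Bf d v (c • w) = c * Bf d v w := by
  rw [Bf_comm, Bf_smul_left, Bf_comm]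

theorem Bf_neg_left (v w : Ix p q → R) : Bf d (-v) w = -Bf d v w := by
  rw [← neg_one_smul R v, Bf_smul_left, neg_one_mul]

theorem Bf_neg_right (v w : Ix p q → R) : Bf d v (-w) = -Bf d v w := by
  rw [← neg_one_smul R w, Bf_smul_right, neg_one_mul]

theorem Bf_sub_left (v v' w : Ix p q → R) : Bf d (v - v') w = Bf d v w - Bf d v' w := by
  rw [sub_eq_add_neg, Bf_add_left, Bf_neg_left, sub_eq_add_neg]

theorem Qf_add (v w : Ix p q → R) : Qf d (v + w) = Qf d v + Qf d w + Bf d v w := by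
  unfold Qf Bf
  have h1 : ∑ i : Fin p, (v + w) (Sum.inl i) * (v + w) (Sum.inr (Sum.inl i)) =
      ∑ i : Fin p, v (Sum.inl i) * v (Sum.inr (Sum.inl i)) +
      ∑ i : Fin p, w (Sum.inl i) * w (Sum.inr (Sum.inl i)) +
      ∑ i : Fin p, (v (Sum.inl i) * w (Sum.inr (Sum.inl i)) +
        v (Sum.inr (Sum.inl i)) * w (Sum.inl i)) := by
    rw [← Finset.sum_add_distrib, ← Finset.sum_add_distrib]
    exact Finset.sum_congr rfl fun i _ => by simp only [Pi.add_apply]; ring
  have h2 : ∑ k, d k * (v + w) (Sum.inr (Sum.inr k)) ^ 2 =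
      ∑ k, d k * v (Sum.inr (Sum.inr k)) ^ 2 + ∑ k, d k * w (Sum.inr (Sum.inr k)) ^ 2 +
      ∑ k, 2 * d k * v (Sum.inr (Sum.inr k)) * w (Sum.inr (Sum.inr k)) := by
    rw [← Finset.sum_add_distrib, ← Finset.sum_add_distrib]
    exact Finset.sum_congr rfl fun i _ => by simp only [Pi.add_apply]; ring
  rw [h1, h2]
  ring

theorem Qf_smul (c : R) (v : Ix p q → R) : Qf d (c • v) = c ^ 2 * Qf d v := by
  unfold Qf
  rw [mul_add, Finset.mul_sum, Finset.mul_sum]
  congr 1
  · exact Finset.sum_congr rfl fun i _ => by simp only [Pi.smul_apply, smul_eq_mul]; ring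
  · exact Finset.sum_congr rfl fun i _ => by simp only [Pi.smul_apply, smul_eq_mul]; ring

theorem Qf_neg (v : Ix p q → R) : Qf d (-v) = Qf d v := by
  rw [← neg_one_smul R v, Qf_smul]
  ring

theorem Bf_self (v : Ix p q → R) : Bf d v v = 2 * Qf d v := by
  unfold Bf Qf
  rw [mul_add, Finset.mul_sum, Finset.mul_sum]
  congr 1
  · exact Finset.sum_congr rfl fun i _ => by ring
  · exact Finset.sum_congr rfl fun i _ => by ring

variable {d}

theorem iso_Bf {g : GL (Ix p q) R} (hg : IsIso d g) (v w : Ix p q → R) :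
    Bf d (g.1 *ᵥ v) (g.1 *ᵥ w) = Bf d v w := by
  have h1 := hg (v + w)
  rw [Matrix.mulVec_add, Qf_add, Qf_add, hg, hg] at h1
  exact add_left_cancel h1

theorem ext_mv {g h : GL (Ix p q) R} (H : ∀ v, g.1 *ᵥ v = h.1 *ᵥ v) : g = h := by
  apply Units.ext
  exact Matrix.mulVec_injective (funext H)

theorem mul_mv (g h : GL (Ix p q) R) (v : Ix p q → R) : (g * h).1 *ᵥ v = g.1 *ᵥ (h.1 *ᵥ v) := by
  rw [Matrix.mulVec_mulVec]
  rfl

theorem inv_mv (g : GL (Ix p q) R) (v : Ix p q → R) : (g⁻¹).1 *ᵥ (g.1 *ᵥ v) = v := by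
  rw [← mul_mv, inv_mul_cancel]
  exact Matrix.one_mulVec v

theorem mv_inv (g : GL (Ix p q) R) (v : Ix p q → R) : g.1 *ᵥ ((g⁻¹).1 *ᵥ v) = v := by
  rw [← mul_mv, mul_inv_cancel]
  exact Matrix.one_mulVec v

theorem ei_unique {x y : GL (Ix p q) R} {u w : Ix p q → R} (hx : IsEi d x u w)
    (hy : IsEi d y u w) : x = y :=
  ext_mv fun v => (hx v).trans (hy v).symm

theorem ei_mul {x y : GL (Ix p q) R} {u w w' : Ix p q → R} (hx : IsEi d x u w)
    (hy : IsEi d y u w') (hu : Qf d u = 0) (hw : Bf d u w = 0) (hw' : Bf d u w' = 0) :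
    IsEi d (x * y) u (w + w') := by
  intro v
  rw [mul_mv, hy v, hx]
  have h1 : Bf d w u = 0 := by rw [Bf_comm, hw]
  have h2 : Bf d w' u = 0 := by rw [Bf_comm, hw']
  simp only [Bf_add_left, Bf_sub_left, Bf_smul_left, Bf_add_right, Qf_add, Bf_self, hu, hw, hw', h1,
    h2, Bf_comm d w' w]
  module

theorem ei_one (u : Ix p q → R) : IsEi d (1 : GL (Ix p q) R) u 0 := by
  intro v
  have h1 : Bf d v 0 = 0 := by
    have := Bf_smul_right d 0 v v
    rwa [zero_smul, zero_mul] at this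
  have h2 : Qf d (0 : Ix p q → R) = 0 := by
    have := Qf_smul d 0 v
    rwa [zero_smul, zero_pow two_ne_zero, zero_mul] at this
  rw [h1, h2]
  simp

theorem ei_inv {x : GL (Ix p q) R} {u w : Ix p q → R} (hx : IsEi d x u w)
    (hu : Qf d u = 0) (hw : Bf d u w = 0) : IsEi d x⁻¹ u (-w) := by
  intro v
  have h1 : Bf d w u = 0 := by rw [Bf_comm, hw]
  have h3 : x.1 *ᵥ (v + Bf d v u • -w - (Bf d v (-w) + Qf d (-w) * Bf d v u) • u) = v := by
    rw [hx]
    simp only [Bf_add_left, Bf_sub_left, Bf_smul_left, Bf_neg_left, Bf_neg_right, Qf_neg,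
      Bf_self, hu, hw, h1]
    module
  have h4 := congrArg ((x⁻¹).1 *ᵥ ·) h3
  simp only [inv_mv] at h4
  exact h4.symm

theorem ei_conj {x g : GL (Ix p q) R} {u w : Ix p q → R} (hg : IsIso d g) (hx : IsEi d x u w) :
    IsEi d (g * x * g⁻¹) (g.1 *ᵥ u) (g.1 *ᵥ w) := by
  intro v
  obtain ⟨v', rfl⟩ : ∃ v', v = g.1 *ᵥ v' := ⟨(g⁻¹).1 *ᵥ v, (mv_inv g v).symm⟩
  rw [mul_mv, mul_mv, inv_mv, hx, iso_Bf hg, iso_Bf hg, hg, Matrix.mulVec_sub, Matrix.mulVec_add,
    Matrix.mulVec_smul, Matrix.mulVec_smul]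

theorem ei_smul {x : GL (Ix p q) R} {u w : Ix p q → R} (c : R) :
    IsEi d x (c • u) w ↔ IsEi d x u (c • w) := by
  unfold IsEi
  refine forall_congr' fun v => ?_
  have h : v + Bf d v (c • u) • w - (Bf d v w + Qf d w * Bf d v (c • u)) • c • u =
      v + Bf d v u • c • w - (Bf d v (c • w) + Qf d (c • w) * Bf d v u) • u := by
    rw [Bf_smul_right, Bf_smul_right, Qf_smul]
    module
  rw [h]

theorem ei_swap {x : GL (Ix p q) R} {u w : Ix p q → R} (hx : IsEi d x u w)
    (hu : Qf d u = 0) (hw : Qf d w = 0) : IsEi d x w (-u) := by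
  intro v
  rw [hx, hw, Bf_neg_right, Qf_neg, hu]
  module

theorem ei_add {x y z : GL (Ix p q) R} {u u' w : Ix p q → R} (hx : IsEi d x u (Qf d w • u'))
    (hy : IsEi d y u' w) (hz : IsEi d z u w) (hu : Qf d u = 0) (hu' : Qf d u' = 0)
    (huu : Bf d u u' = 0) (hw : Bf d u w = 0) (hw' : Bf d u' w = 0) :
    IsEi d (x * y * z) (u + u') w := by
  intro v
  have h1 : Bf d w u = 0 := by rw [Bf_comm, hw]
  have h2 : Bf d w u' = 0 := by rw [Bf_comm, hw']
  have h3 : Bf d u' u = 0 := by rw [Bf_comm, huu]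
  rw [mul_mv, mul_mv, hz, hy, hx]
  simp only [Bf_add_left, Bf_sub_left, Bf_smul_left, Bf_add_right, Bf_smul_right, Qf_add, Qf_smul,
    Bf_self, hu, hu', huu, hw, hw', h1, h2, h3]
  module

/-- the Eichler transformation -/
def El (d : Fin q → R) (u w : Ix p q → R) : (Ix p q → R) →ₗ[R] (Ix p q → R) where
  toFun v := v + Bf d v u • w - (Bf d v w + Qf d w * Bf d v u) • u
  map_add' v v' := by
    rw [Bf_add_left, Bf_add_left]
    module
  map_smul' c v := by
    rw [Bf_smul_left, Bf_smul_left, RingHom.id_apply]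
    module

theorem El_El (d : Fin q → R) {u w : Ix p q → R} (hu : Qf d u = 0) (hw : Bf d u w = 0) :
    El d u w ∘ₗ El d u (-w) = LinearMap.id := by
  apply LinearMap.ext
  intro v
  have h1 : Bf d w u = 0 := by rw [Bf_comm, hw]
  change (v + Bf d v u • -w - (Bf d v (-w) + Qf d (-w) * Bf d v u) • u) +
    Bf d (v + Bf d v u • -w - (Bf d v (-w) + Qf d (-w) * Bf d v u) • u) u • w -
    (Bf d (v + Bf d v u • -w - (Bf d v (-w) + Qf d (-w) * Bf d v u) • u) w + Qf d w *
    Bf d (v + Bf d v u • -w - (Bf d v (-w) + Qf d (-w) * Bf d v u) • u) u) • u = v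
  simp only [Bf_add_left, Bf_sub_left, Bf_smul_left, Bf_neg_left, Bf_neg_right, Qf_neg,
    Bf_self, hu, hw, h1]
  module

theorem ei_exists (d : Fin q → R) {u w : Ix p q → R} (hu : Qf d u = 0) (hw : Bf d u w = 0) :
    ∃ x : GL (Ix p q) R, IsEi d x u w := by
  have h1 := El_El d hu hw
  have h2 := El_El d (w := -w) hu (by rw [Bf_neg_right, hw, neg_zero])
  rw [neg_neg] at h2
  refine ⟨⟨LinearMap.toMatrix' (El d u w), LinearMap.toMatrix' (El d u (-w)), ?_, ?_⟩, ?_⟩
  · rw [← LinearMap.toMatrix'_comp, h1, LinearMap.toMatrix'_id]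
  · rw [← LinearMap.toMatrix'_comp, h2, LinearMap.toMatrix'_id]
  · intro v
    exact LinearMap.toMatrix'_mulVec _ _

theorem ei_iso {x : GL (Ix p q) R} {u w : Ix p q → R} (hx : IsEi d x u w)
    (hu : Qf d u = 0) (hw : Bf d u w = 0) : IsIso d x := by
  intro v
  have h1 : Bf d w u = 0 := by rw [Bf_comm, hw]
  rw [hx, sub_eq_add_neg, ← neg_smul]
  simp only [Qf_add, Qf_smul, Bf_add_left, Bf_smul_left, Bf_smul_right, hu, hw, h1]
  ring

end forms

section basis

variable {R : Type} [CommRing R] {p q : ℕ} (d : Fin q → R)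

/-- the index of the hyperbolic basis vectors -/
def ix (q : ℕ) {p : ℕ} (i : Fin p) (b : Bool) : Ix p q :=
  if b then Sum.inr (Sum.inl i) else Sum.inl i

/-- the hyperbolic basis vectors -/
def vh (R : Type) [CommRing R] {p : ℕ} (q : ℕ) (i : Fin p) (b : Bool) : Ix p q → R :=
  Pi.single (ix q i b) 1

theorem vh_false (i : Fin p) : vh R q i false = ve R i := rfl

theorem vh_true (i : Fin p) : vh R q i true = vf R i := rfl

theorem vh_apply (i j : Fin p) (b b' : Bool) :
    vh R q i b (ix q j b') = if i = j ∧ b = b' then 1 else 0 := by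
  unfold vh ix
  cases b <;> cases b' <;> by_cases h : i = j <;>
    simp [Pi.single_apply, h, eq_comm (a := j) (b := i)]

theorem vh_apply_g (i : Fin p) (b : Bool) (k : Fin q) :
    vh R q i b (Sum.inr (Sum.inr k)) = 0 := by
  unfold vh ix
  cases b <;> simp [Pi.single_apply]

theorem vg_apply (k : Fin q) (j : Fin p) (b : Bool) : vg R k (ix q j b) = 0 := by
  unfold vg ix
  cases b <;> simp [Pi.single_apply]

theorem vg_apply_g (k k' : Fin q) :
    vg R (p := p) k (Sum.inr (Sum.inr k')) = if k = k' then 1 else 0 := by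
  unfold vg
  by_cases h : k = k' <;> simp [Pi.single_apply, h, eq_comm (a := k') (b := k)]

theorem Bf_vh (v : Ix p q → R) (i : Fin p) (b : Bool) :
    Bf d v (vh R q i b) = v (ix q i (!b)) := by
  have h1 : ∀ j : Fin p, vh R q i b (Sum.inl j) = if i = j ∧ b = false then 1 else 0 := fun j =>
    vh_apply i j b false
  have h2 : ∀ j : Fin p, vh R q i b (Sum.inr (Sum.inl j)) = if i = j ∧ b = true then 1 else 0 :=
    fun j => vh_apply i j b true
  unfold Bf
  simp only [h1, h2, vh_apply_g, mul_zero, Finset.sum_const_zero, add_zero]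
  cases b <;> simp [ix]

theorem Bf_vg (v : Ix p q → R) (k : Fin q) :
    Bf d v (vg R k) = 2 * d k * v (Sum.inr (Sum.inr k)) := by
  have h1 : ∀ j : Fin p, vg R k (Sum.inl j) = 0 := fun j => vg_apply k j false
  have h2 : ∀ j : Fin p, vg R k (Sum.inr (Sum.inl j)) = 0 := fun j => vg_apply k j true
  unfold Bf
  simp only [h1, h2, vg_apply_g, mul_zero, Finset.sum_const_zero, add_zero, zero_add]
  simp

theorem Qf_vh (i : Fin p) (b : Bool) : Qf d (vh R q i b) = 0 := by
  have h1 : ∀ j : Fin p, vh R q i b (Sum.inl j) = if i = j ∧ b = false then 1 else 0 := fun j =>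
    vh_apply i j b false
  have h2 : ∀ j : Fin p, vh R q i b (Sum.inr (Sum.inl j)) = if i = j ∧ b = true then 1 else 0 :=
    fun j => vh_apply i j b true
  unfold Qf
  simp only [h1, h2, vh_apply_g]
  cases b <;> simp

theorem Qf_vg (k : Fin q) : Qf d (vg R (p := p) k) = d k := by
  have h1 : ∀ j : Fin p, vg R k (Sum.inl j) = 0 := fun j => vg_apply k j false
  unfold Qf
  simp only [h1, vg_apply_g, zero_mul, Finset.sum_const_zero, zero_add]
  simp

variable {d}

theorem Bf_vh' (v : Ix p q → R) (i : Fin p) (b : Bool) :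
    Bf d (vh R q i b) v = v (ix q i (!b)) := by
  rw [Bf_comm, Bf_vh]

theorem mem_EO {x : GL (Ix p q) R} {i : Fin p} {b : Bool} {w : Ix p q → R}
    (hx : IsEi d x (vh R q i b) w) (hw : ∀ b', w (ix q i b') = 0) : x ∈ EO d := by
  refine Subgroup.subset_closure ⟨vh R q i b, w, hx, i, ?_, hw false, hw true⟩
  cases b
  · exact Or.inl rfl
  · exact Or.inr rfl

theorem ei_vh_exists (d : Fin q → R) (i : Fin p) (b : Bool) {w : Ix p q → R}
    (hw : ∀ b', w (ix q i b') = 0) :
    ∃ x ∈ EO (p := p) d, IsEi d x (vh R q i b) w ∧ IsIso d x := by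
  have h1 : Bf d (vh R q i b) w = 0 := by rw [Bf_vh']; exact hw _
  obtain ⟨x, hx⟩ := ei_exists d (Qf_vh d i b) h1
  exact ⟨x, mem_EO hx hw, hx, ei_iso hx (Qf_vh d i b) h1⟩

theorem EO_iso {x : GL (Ix p q) R} (hx : x ∈ EO d) : IsIso d x := by
  induction hx using Subgroup.closure_induction with
  | mem x hx =>
    obtain ⟨u, w, hx, i, hu, hw, hw'⟩ := hx
    have h2 : ∃ b, u = vh R q i b := by
      rcases hu with hu | hu
      · exact ⟨false, hu⟩
      · exact ⟨true, hu⟩
    obtain ⟨b, rfl⟩ := h2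
    refine ei_iso hx (Qf_vh d i b) ?_
    rw [Bf_vh']
    cases b
    · exact hw'
    · exact hw
  | one =>
    intro v
    change Qf d ((1 : Matrix _ _ R) *ᵥ v) = _
    rw [Matrix.one_mulVec]
  | mul x y _ _ hx hy =>
    intro v
    rw [mul_mv, hx, hy]
  | inv x _ hx =>
    intro v
    rw [← hx, mv_inv]

end basis

section normal

variable {R : Type} [CommRing R] {p q : ℕ} {d : Fin q → R}

/-- the data: a subgroup `M` of `GL` which is normalised by `EO` -/
structure NS (d : Fin q → R) (M : Subgroup (GL (Ix p q) R)) : Prop where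
  conj : ∀ g ∈ EO (p := p) d, ∀ x ∈ M, g * x * g⁻¹ ∈ M

/-- `M` contains the Eichler transformation -/
def Nn (d : Fin q → R) (M : Subgroup (GL (Ix p q) R)) (u w : Ix p q → R) : Prop :=
  ∃ x ∈ M, IsEi d x u w

variable {M : Subgroup (GL (Ix p q) R)} (hM : NS d M)

include hM in
/-- commutator with an element which fixes `u` -/
theorem Nn.move {u w w' : Ix p q → R} (h : Nn d M u w) (hu : Qf d u = 0) (hw : Bf d u w = 0)
    {g : GL (Ix p q) R} (hg : g ∈ EO (p := p) d) (hgu : g.1 *ᵥ u = u)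
    (hgw : g.1 *ᵥ w = w + w') : Nn d M u w' := by
  obtain ⟨x, hxM, hx⟩ := h
  have hgi := EO_iso hg
  have h1 := ei_conj hgi hx
  rw [hgu, hgw] at h1
  have h2 : Bf d u (w + w') = 0 := by
    rw [← hgw, ← hw]
    nth_rewrite 1 [← hgu]
    exact iso_Bf hgi u w
  have h3 := ei_mul (ei_inv hx hu hw) h1 hu (by rw [Bf_neg_right, hw, neg_zero]) h2
  rw [neg_add_cancel_left] at h3
  exact ⟨_, M.mul_mem (M.inv_mem hxM) (hM.conj g hg x hxM), h3⟩

theorem Nn.add {u w w' : Ix p q → R} (h : Nn d M u w) (h' : Nn d M u w') (hu : Qf d u = 0)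
    (hw : Bf d u w = 0) (hw' : Bf d u w' = 0) : Nn d M u (w + w') := by
  obtain ⟨x, hxM, hx⟩ := h
  obtain ⟨y, hyM, hy⟩ := h'
  exact ⟨x * y, M.mul_mem hxM hyM, ei_mul hx hy hu hw hw'⟩

theorem Nn.neg {u w : Ix p q → R} (h : Nn d M u w) (hu : Qf d u = 0)
    (hw : Bf d u w = 0) : Nn d M u (-w) := by
  obtain ⟨x, hxM, hx⟩ := h
  exact ⟨x⁻¹, M.inv_mem hxM, ei_inv hx hu hw⟩

theorem Nn.swap {u w : Ix p q → R} (h : Nn d M u w) (hu : Qf d u = 0)
    (hw : Qf d w = 0) : Nn d M w (-u) := by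
  obtain ⟨x, hxM, hx⟩ := h
  exact ⟨x, hxM, ei_swap hx hu hw⟩

theorem Nn.smul {u w : Ix p q → R} (c : R) : Nn d M (c • u) w ↔ Nn d M u (c • w) := by
  constructor
  · rintro ⟨x, hxM, hx⟩
    exact ⟨x, hxM, (ei_smul c).1 hx⟩
  · rintro ⟨x, hxM, hx⟩
    exact ⟨x, hxM, (ei_smul c).2 hx⟩

/-- all multiples of `δ` -/
def PP (d : Fin q → R) (M : Subgroup (GL (Ix p q) R)) (δ : R) (i : Fin p) (b : Bool) (j : Fin p)
    (b' : Bool) : Prop := ∀ c : R, Nn d M (vh R q i b) ((δ * c) • vh R q j b')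

theorem PP.symm {δ : R} {i j : Fin p} {b b' : Bool} (h : PP d M δ i b j b') :
    PP d M δ j b' i b := by
  intro c
  have h1 := (h (-c)).swap (Qf_vh d i b) (by rw [Qf_smul, Qf_vh, mul_zero])
  rw [Nn.smul] at h1
  rw [smul_neg, mul_neg, neg_smul, neg_neg] at h1
  exact h1

include hM in
theorem PP.spread {δ : R} {i j l : Fin p} {b b' : Bool} (hij : i ≠ j) (hil : i ≠ l) (hjl : j ≠ l)
    (h : PP d M δ i b j b') (b'' : Bool) : PP d M δ i b l b'' := by
  intro c
  obtain ⟨g, hg, hgE, hgi⟩ := ei_vh_exists d j (!b') (w := vh R q l b'') (fun b₀ => by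
    rw [vh_apply, if_neg (fun h => hjl h.1.symm)])
  refine (h c).move hM (Qf_vh d i b) ?_ hg ?_ (w' := (δ * c) • vh R q l b'') ?_
  · rw [Bf_vh', Pi.smul_apply, vh_apply, if_neg (fun h => hij h.1.symm), smul_zero]
  · rw [hgE, Bf_vh, Bf_vh, Qf_vh, vh_apply, vh_apply, if_neg (fun h => hij h.1),
      if_neg (fun h => hil h.1)]
    module
  · rw [Matrix.mulVec_smul, hgE, Bf_vh, Bf_vh, Qf_vh, vh_apply, vh_apply, Bool.not_not,
      if_pos ⟨rfl, rfl⟩, if_neg (fun h => hjl h.1)]
    module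

include hM in
/-- from one pair to all -/
theorem PP.all {δ : R} {i j l : Fin p} {b b' : Bool} (hij : i ≠ j) (hil : i ≠ l) (hjl : j ≠ l)
    (h : PP d M δ i b j b') : ∀ (i' : Fin p) (c' : Bool) (j' : Fin p) (c'' : Bool), i' ≠ j' →
    PP d M δ i' c' j' c'' := by
  -- from `(i, b)` to all
  have key : ∀ {i j l : Fin p} {b b' : Bool}, i ≠ j → i ≠ l → j ≠ l → PP d M δ i b j b' →
      ∀ (j' : Fin p) (c'' : Bool), i ≠ j' → PP d M δ i b j' c'' := by
    intro i j l b b' hij hil hjl h j' c'' hj'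
    by_cases hjj : j = j'
    · subst hjj
      exact (h.spread hM hij hil hjl false).spread hM hil hij hjl.symm c''
    · exact h.spread hM hij hj' hjj c''
  intro i' c' j' c'' hij'
  have h1 := key hij hil hjl h
  by_cases hi' : i' = i
  · subst hi'
    -- first to another index `k`, back with the type changed
    have h2 : PP d M δ j' c'' i' b := (h1 j' c'' hij').symm
    obtain ⟨k, hk1, hk2⟩ : ∃ k, j' ≠ k ∧ i' ≠ k := by
      by_cases hj : j' = j
      · exact ⟨l, hj ▸ hjl, hil⟩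
      · exact ⟨j, hj, hij⟩
    exact (key hij'.symm hk1 hk2 h2 i' c' hij'.symm).symm
  · by_cases hj' : j' = i
    · subst hj'
      have h2 : PP d M δ i' c' j' b := (h1 i' c' (Ne.symm hi')).symm
      obtain ⟨k, hk1, hk2⟩ : ∃ k, i' ≠ k ∧ j' ≠ k := by
        by_cases hj : i' = j
        · exact ⟨l, hj ▸ hjl, hil⟩
        · exact ⟨j, hj, hij⟩
      exact key hij' hk1 hk2 h2 j' c'' hij'
    · have h2 : PP d M δ i' c' i b := (h1 i' c' (Ne.symm hi')).symm
      exact key hi' hij' (Ne.symm hj') h2 j' c'' hij'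

theorem Nn.zero (u : Ix p q → R) : Nn d M u 0 := ⟨1, M.one_mem, ei_one u⟩

include hM in
/-- commutator in `M` -/
theorem comm_mem {x y : GL (Ix p q) R} (hx : x ∈ M) (hy : y ∈ EO (p := p) d) :
    x * y * x⁻¹ * y⁻¹ ∈ M := by
  have h1 := M.mul_mem hx (hM.conj y hy x⁻¹ (M.inv_mem hx))
  have h2 : x * y * x⁻¹ * y⁻¹ = x * (y * x⁻¹ * y⁻¹) := by group
  rw [h2]
  exact h1

include hM in
theorem PP.toG {δ : R} (h : ∀ (i' : Fin p) (c' : Bool) (j' : Fin p) (c'' : Bool), i' ≠ j' →
    PP d M δ i' c' j' c'') {i j : Fin p} (hij : i ≠ j) (b : Bool) (k : Fin q) (c : R) :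
    Nn d M (vh R q i b) ((δ * c) • vg R k) := by
  obtain ⟨x, hxM, hx⟩ := h i b j true hij (-c)
  have hx0 : Bf d (vh R q i b) ((δ * -c) • vh R q j true) = 0 := by
    rw [Bf_vh', Pi.smul_apply, vh_apply, if_neg (fun h => hij h.1.symm), smul_zero]
  have hxi := ei_iso hx (Qf_vh d i b) hx0
  obtain ⟨y, hyE, hy, hyi⟩ := ei_vh_exists d j false (w := vg R k) (fun b' => vg_apply k j b')
  have h1 := comm_mem hM hxM hyE
  have h2 := ei_conj hxi hy
  have e1 : x.1 *ᵥ vh R q j false = vh R q j false + (δ * c) • vh R q i b := by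
    rw [hx, Bf_vh, Bf_smul_right, Bf_vh, Qf_smul, Qf_vh, vh_apply, vh_apply,
      if_neg (fun h => hij h.1.symm), if_pos ⟨rfl, rfl⟩]
    module
  have e2 : x.1 *ᵥ vg R k = vg R k := by
    rw [hx, Bf_vh, Bf_smul_right, Bf_vh, Qf_smul, Qf_vh, vg_apply, vg_apply]
    module
  rw [e1, e2] at h2
  obtain ⟨X, hXM, hX⟩ := h j false i b hij.symm (d k * c)
  have o1 : Bf d ((δ * c) • vh R q i b) (vg R k) = 0 := by
    rw [Bf_smul_left, Bf_vh', vg_apply, mul_zero]
  obtain ⟨Y, hY⟩ := ei_exists d (u := (δ * c) • vh R q i b) (w := vg R k)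
    (by rw [Qf_smul, Qf_vh, mul_zero]) o1
  have h3 := ei_add (w := vg R k) (x := X) (y := Y) (z := y) (u := vh R q j false)
    (u' := (δ * c) • vh R q i b) (by
      rw [Qf_vg, smul_smul, show d k * (δ * c) = δ * (d k * c) by ring]
      exact hX) hY hy (Qf_vh d j false) (by rw [Qf_smul, Qf_vh, mul_zero]) (by
      rw [Bf_vh', Pi.smul_apply, vh_apply, if_neg (fun h => hij h.1), smul_zero]) (by
      rw [Bf_vh', vg_apply]) o1
  have h4 : x * y * x⁻¹ = X * Y * y := ei_unique h2 h3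
  rw [h4, mul_inv_cancel_right] at h1
  have h5 : Y ∈ M := by
    have := M.mul_mem (M.inv_mem hXM) h1
    rwa [inv_mul_cancel_left] at this
  exact (Nn.smul (δ * c)).1 ⟨Y, h5, hY⟩

theorem ix_cases (x : Ix p q) : (∃ j b, x = ix q j b) ∨ ∃ k, x = Sum.inr (Sum.inr k) := by
  rcases x with j | j | k
  · exact Or.inl ⟨j, false, rfl⟩
  · exact Or.inl ⟨j, true, rfl⟩
  · exact Or.inr ⟨k, rfl⟩

include hM in
theorem all_w {δ : R} (h : ∀ (i' : Fin p) (c' : Bool) (j' : Fin p) (c'' : Bool), i' ≠ j' →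
    PP d M δ i' c' j' c'') {i j : Fin p} (hij : i ≠ j) (b : Bool) (w : Ix p q → R)
    (hw : ∀ b', w (ix q i b') = 0) : Nn d M (vh R q i b) (δ • w) := by
  classical
  have key : ∀ s : Finset (Ix p q), Nn d M (vh R q i b) (δ • fun y => if y ∈ s then w y else 0) := by
    intro s
    induction s using Finset.induction_on with
    | empty =>
      have : (δ • fun y : Ix p q => if y ∈ (∅ : Finset (Ix p q)) then w y else 0) = 0 := by
        funext y
        simp
      rw [this]
      exact Nn.zero _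
    | insert x s hx ih =>
      have h1 : (δ • fun y : Ix p q => if y ∈ insert x s then w y else 0) =
          (δ • fun y : Ix p q => if y ∈ s then w y else 0) +
            (δ * w x) • (Pi.single x 1 : Ix p q → R) := by
        funext y
        simp only [Pi.smul_apply, Pi.add_apply, smul_eq_mul, Finset.mem_insert]
        by_cases hy : y = x
        · subst hy
          simp [hx]
        · simp [hy]
      rw [h1]
      refine ih.add ?_ (Qf_vh d i b) ?_ ?_
      · rcases ix_cases x with ⟨j', b', rfl⟩ | ⟨k, rfl⟩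
        · by_cases hj' : i = j'
          · subst hj'
            rw [hw, mul_zero, zero_smul]
            exact Nn.zero _
          · exact h i b j' b' hj' _
        · exact PP.toG hM h hij b k _
      · rw [Bf_vh', Pi.smul_apply]
        simp [hw]
      · rw [Bf_vh', Pi.smul_apply, Pi.single_apply]
        by_cases hx' : ix q i (!b) = x
        · rw [← hx', hw, mul_zero, zero_smul]
        · rw [if_neg hx', smul_zero]
  have := key Finset.univ
  simpa using this

include hM in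
theorem EEO_le {δ : R} (h : ∀ (i' : Fin p) (c' : Bool) (j' : Fin p) (c'' : Bool), i' ≠ j' →
    PP d M δ i' c' j' c'') (hp : ∀ i : Fin p, ∃ j, i ≠ j) : EEO d δ ≤ M := by
  classical
  refine (Subgroup.closure_le _).2 ?_
  rintro _ ⟨g, y, u, w, hg, ⟨hy, i, hu, hw, hw'⟩, rfl⟩
  apply hM.conj g hg
  obtain ⟨b, rfl⟩ : ∃ b, u = vh R q i b := by
    rcases hu with hu | hu
    · exact ⟨false, hu⟩
    · exact ⟨true, hu⟩
  obtain ⟨j, hij⟩ := hp i
  have hw2 : ∀ b', δ * w (ix q i b') = 0 := by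
    intro b'
    cases b'
    · exact hw
    · exact hw'
  obtain ⟨y', hy'M, hy'⟩ := all_w hM h hij b
    (fun x => if x = ix q i false ∨ x = ix q i true then 0 else w x) (by
      intro b'
      cases b' <;> simp)
  have h1 : (δ • fun x => if x = ix q i false ∨ x = ix q i true then 0 else w x) = δ • w := by
    funext x
    simp only [Pi.smul_apply, smul_eq_mul]
    by_cases hx : x = ix q i false ∨ x = ix q i true
    · rw [if_pos hx, mul_zero]
      rcases hx with rfl | rfl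
      · exact (hw2 false).symm
      · exact (hw2 true).symm
    · rw [if_neg hx]
  rw [h1] at hy'
  rw [ei_unique hy hy']
  exact hy'M

end normal

section signs

variable {R : Type} [CommRing R] {p q : ℕ} {d : Fin q → R}

/-- description of the sign changes -/
structure SC (t : GL (Ix p q) R) (s : Fin p → R) (σ : Fin p → Bool) (τ : Fin q → R) : Prop where
  hs : ∀ i, s i = 1 ∨ s i = -1
  hτ : ∀ k, τ k = 1 ∨ τ k = -1
  h : ∀ i b, t.1 *ᵥ vh R q i b = s i • vh R q i (b ^^ σ i)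
  g : ∀ k, t.1 *ᵥ vg R k = τ k • vg R k

theorem units_smul (s : ℤˣ) (v : Ix p q → R) : ∃ r : R, (r = 1 ∨ r = -1) ∧ s • v = r • v := by
  rcases Int.units_eq_one_or s with rfl | rfl
  · exact ⟨1, Or.inl rfl, by rw [one_smul, one_smul]⟩
  · exact ⟨-1, Or.inr rfl, by rw [Units.neg_smul, one_smul, neg_smul, one_smul]⟩

theorem sc_exists {t : GL (Ix p q) R} (ht : t ∈ Dg R p q) :
    ∃ (s : Fin p → R) (σ : Fin p → Bool) (τ : Fin q → R), SC t s σ τ := by
  obtain ⟨h1, h2⟩ := ht
  have h3 : ∀ i : Fin p, ∃ r : R, (r = 1 ∨ r = -1) ∧ ∃ σ : Bool, ∀ b,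
      t.1 *ᵥ vh R q i b = r • vh R q i (b ^^ σ) := by
    intro i
    obtain ⟨s, hs⟩ := h1 i
    have hr : ∃ r : R, (r = 1 ∨ r = -1) ∧ ∀ v : Ix p q → R, s • v = r • v := by
      rcases Int.units_eq_one_or s with rfl | rfl
      · exact ⟨1, Or.inl rfl, fun v => by rw [one_smul, one_smul]⟩
      · exact ⟨-1, Or.inr rfl, fun v => by rw [Units.neg_smul, one_smul, neg_smul, one_smul]⟩
    obtain ⟨r, hr, hr'⟩ := hr
    refine ⟨r, hr, ?_⟩
    rcases hs with ⟨ha, hb⟩ | ⟨ha, hb⟩
    · refine ⟨false, fun b => ?_⟩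
      cases b
      · exact ha.trans (hr' _)
      · exact hb.trans (hr' _)
    · refine ⟨true, fun b => ?_⟩
      cases b
      · exact ha.trans (hr' _)
      · exact hb.trans (hr' _)
  have h4 : ∀ k : Fin q, ∃ r : R, (r = 1 ∨ r = -1) ∧ t.1 *ᵥ vg R k = r • vg R k := by
    intro k
    obtain ⟨s, hs⟩ := h2 k
    obtain ⟨r, hr, hr'⟩ := units_smul s (vg R (p := p) k)
    exact ⟨r, hr, hs.trans hr'⟩
  choose s hs σ hσ using h3
  choose τ hτ hτ' using h4
  exact ⟨s, σ, τ, hs, hτ, hσ, hτ'⟩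

variable {t : GL (Ix p q) R} {s : Fin p → R} {σ : Fin p → Bool} {τ : Fin q → R}

theorem sq_one {r : R} (h : r = 1 ∨ r = -1) : r * r = 1 := by
  rcases h with rfl | rfl <;> ring

theorem SC.comp (h : SC t s σ τ) (v : Ix p q → R) (i : Fin p) (b : Bool) :
    (t.1 *ᵥ v) (ix q i (b ^^ σ i)) = s i * v (ix q i b) := by
  classical
  have h1 : (LinearMap.proj (ix q i (b ^^ σ i)) : (Ix p q → R) →ₗ[R] R) ∘ₗ t.1.mulVecLin =
      s i • (LinearMap.proj (ix q i b) : (Ix p q → R) →ₗ[R] R) := by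
    apply LinearMap.pi_ext'
    intro x
    apply LinearMap.ext_ring
    change (t.1 *ᵥ Pi.single x 1) (ix q i (b ^^ σ i)) = s i • (Pi.single x 1 : Ix p q → R) (ix q i b)
    rcases ix_cases x with ⟨j, b', rfl⟩ | ⟨k, rfl⟩
    · change (t.1 *ᵥ vh R q j b') (ix q i (b ^^ σ i)) = s i • vh R q j b' (ix q i b)
      rw [h.h, Pi.smul_apply, vh_apply, vh_apply]
      by_cases hij : j = i
      · subst hij
        by_cases hb : b' = b
        · subst hb
          simp
        · rw [if_neg (fun h => hb (Bool.xor_left_inj.1 h.2)), if_neg (fun h => hb h.2)]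
      · rw [if_neg (fun h => hij h.1), if_neg (fun h => hij h.1), smul_zero, smul_zero]
    · change (t.1 *ᵥ vg R k) (ix q i (b ^^ σ i)) = s i • vg R k (ix q i b)
      rw [h.g, Pi.smul_apply, vg_apply, vg_apply, smul_zero, smul_zero]
  exact LinearMap.congr_fun h1 v

theorem SC.comp_g (h : SC t s σ τ) (v : Ix p q → R) (k : Fin q) :
    (t.1 *ᵥ v) (Sum.inr (Sum.inr k)) = τ k * v (Sum.inr (Sum.inr k)) := by
  classical
  have h1 : (LinearMap.proj (Sum.inr (Sum.inr k)) : (Ix p q → R) →ₗ[R] R) ∘ₗ t.1.mulVecLin =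
      τ k • (LinearMap.proj (Sum.inr (Sum.inr k)) : (Ix p q → R) →ₗ[R] R) := by
    apply LinearMap.pi_ext'
    intro x
    apply LinearMap.ext_ring
    change (t.1 *ᵥ Pi.single x 1) (Sum.inr (Sum.inr k)) =
      τ k • (Pi.single x 1 : Ix p q → R) (Sum.inr (Sum.inr k))
    rcases ix_cases x with ⟨j, b', rfl⟩ | ⟨k', rfl⟩
    · change (t.1 *ᵥ vh R q j b') (Sum.inr (Sum.inr k)) = τ k • vh R q j b' (Sum.inr (Sum.inr k))
      rw [h.h, Pi.smul_apply, vh_apply_g, vh_apply_g, smul_zero, smul_zero]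
    · change (t.1 *ᵥ vg R k') (Sum.inr (Sum.inr k)) = τ k • vg R k' (Sum.inr (Sum.inr k))
      rw [h.g, Pi.smul_apply, vg_apply_g]
      by_cases hk : k' = k
      · subst hk
        rfl
      · rw [if_neg hk, smul_zero, smul_zero]
  exact LinearMap.congr_fun h1 v

theorem SC.iso (h : SC t s σ τ) : IsIso d t := by
  intro v
  unfold Qf
  congr 1
  · refine Finset.sum_congr rfl fun i _ => ?_
    have h1 := h.comp v i false
    have h2 := h.comp v i true
    have h3 := sq_one (h.hs i)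
    cases hσ : σ i
    · rw [hσ] at h1 h2
      change (t.1 *ᵥ v) (Sum.inl i) = s i * v (Sum.inl i) at h1
      change (t.1 *ᵥ v) (Sum.inr (Sum.inl i)) = s i * v (Sum.inr (Sum.inl i)) at h2
      rw [h1, h2]
      linear_combination (v (Sum.inl i) * v (Sum.inr (Sum.inl i))) * h3
    · rw [hσ] at h1 h2
      change (t.1 *ᵥ v) (Sum.inr (Sum.inl i)) = s i * v (Sum.inl i) at h1
      change (t.1 *ᵥ v) (Sum.inl i) = s i * v (Sum.inr (Sum.inl i)) at h2
      rw [h1, h2]
      linear_combination (v (Sum.inl i) * v (Sum.inr (Sum.inl i))) * h3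
  · refine Finset.sum_congr rfl fun k _ => ?_
    have h3 := sq_one (h.hτ k)
    rw [h.comp_g]
    linear_combination (d k * v (Sum.inr (Sum.inr k)) ^ 2) * h3

end signs

section cases

variable {R : Type} [CommRing R] {p q : ℕ} {d : Fin q → R}
  {M : Subgroup (GL (Ix p q) R)} (hM : NS d M)
  {t : GL (Ix p q) R} {s : Fin p → R} {σ : Fin p → Bool} {τ : Fin q → R}

include hM in
/-- commutator with `t` -/
theorem t_comm (ht : t ∈ M) (hsc : SC t s σ τ) {u w u' w' : Ix p q → R} (hu : t.1 *ᵥ u = u')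
    (hw : t.1 *ᵥ w = w') {x : GL (Ix p q) R} (hx : x ∈ EO (p := p) d) (hxE : IsEi d x u w) :
    t * x * t⁻¹ * x⁻¹ ∈ M ∧ IsEi d (t * x * t⁻¹) u' w' := by
  refine ⟨comm_mem hM ht hx, ?_⟩
  have := ei_conj hsc.iso hxE
  rwa [hu, hw] at this

include hM in
theorem case_a (ht : t ∈ M) (hsc : SC t s σ τ) {i j : Fin p} (hij : i ≠ j) (hi : σ i = false)
    (hj : σ j = false) (hs : s j = -s i) (e : R) : PP d M (2 * e) i false j true := by
  intro c
  obtain ⟨x, hxE, hx, -⟩ := ei_vh_exists d i false (w := (-(e * c)) • vh R q j true) (fun b => by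
    rw [Pi.smul_apply, vh_apply, if_neg (fun h => hij h.1.symm), smul_zero])
  obtain ⟨h1, h2⟩ := t_comm hM ht hsc rfl rfl hxE hx
  have o1 : ∀ r : R, Bf d (vh R q i false) (r • vh R q j true) = 0 := by
    intro r
    rw [Bf_vh', Pi.smul_apply, vh_apply, if_neg (fun h => hij h.1.symm), smul_zero]
  rw [hsc.h, hi, Matrix.mulVec_smul, hsc.h, hj, hs, ei_smul, Bool.xor_false, Bool.xor_false,
    smul_smul, smul_smul] at h2
  have h3 := ei_mul h2 (ei_inv hx (Qf_vh d i false) (o1 _)) (Qf_vh d i false) (o1 _) (by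
    rw [Bf_neg_right, o1, neg_zero])
  refine ⟨_, h1, ?_⟩
  have h4 : (s i * -(e * c) * -s i) • vh R q j true + -(-(e * c)) • vh R q j true =
      (2 * e * c) • vh R q j true := by
    have h5 := sq_one (hsc.hs i)
    rw [show s i * -(e * c) * -s i = (e * c) * (s i * s i) by ring, h5, mul_one]
    module
  rw [neg_smul (-(e * c)) (vh R q j true)] at h4
  rw [← h4]
  exact h3

include hM in
theorem case_b (ht : t ∈ M) (hsc : SC t s σ τ) {i j l : Fin p} (hij : i ≠ j) (hil : i ≠ l)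
    (hjl : j ≠ l) (hi : σ i = false) (hj : σ j = true) (δ : R) : PP d M δ i false l false := by
  intro c
  obtain ⟨x, hxE, hx, -⟩ := ei_vh_exists d i false (w := (-(δ * c)) • vh R q j true) (fun b => by
    rw [Pi.smul_apply, vh_apply, if_neg (fun h => hij h.1.symm), smul_zero])
  obtain ⟨h1, h2⟩ := t_comm hM ht hsc rfl rfl hxE hx
  have o1 : ∀ (r : R) (b : Bool), Bf d (vh R q i false) (r • vh R q j b) = 0 := by
    intro r b
    rw [Bf_vh', Pi.smul_apply, vh_apply, if_neg (fun h => hij h.1.symm), smul_zero]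
  rw [hsc.h, hi, Matrix.mulVec_smul, hsc.h, hj, ei_smul, Bool.xor_false,
    smul_smul, smul_smul] at h2
  have h3 := ei_mul h2 (ei_inv hx (Qf_vh d i false) (o1 _ _)) (Qf_vh d i false) (o1 _ _) (by
    rw [Bf_neg_right, o1, neg_zero])
  have h4 : Nn d M (vh R q i false) _ := ⟨_, h1, h3⟩
  obtain ⟨g, hg, hgE, hgi⟩ := ei_vh_exists d j false (w := vh R q l false) (fun b₀ => by
    rw [vh_apply, if_neg (fun h => hjl h.1.symm)])
  refine h4.move hM (Qf_vh d i false) ?_ hg ?_ (w' := (δ * c) • vh R q l false) ?_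
  · rw [Bf_add_right, Bf_neg_right, o1, o1]
    ring
  · rw [hgE, Bf_vh, Bf_vh, Qf_vh, vh_apply, vh_apply, if_neg (fun h => hij h.1),
      if_neg (fun h => hil h.1)]
    module
  · rw [Matrix.mulVec_add, Matrix.mulVec_neg, Matrix.mulVec_smul, Matrix.mulVec_smul, hgE, hgE,
      Bf_vh, Bf_vh, Qf_vh, vh_apply, vh_apply, Bf_vh, Bf_vh, vh_apply, vh_apply]
    simp only [Bool.true_xor, Bool.not_true, Bool.not_false, if_neg (fun h => hjl (And.left h))]
    simp
    try module

include hM in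
theorem case_c (ht : t ∈ M) (hsc : SC t s σ τ) {i j : Fin p} (hij : i ≠ j) (k : Fin q)
    (hi : σ i = false) (hs : τ k = -s i) (e : R) : PP d M (4 * (d k * e)) j false i false := by
  intro c
  obtain ⟨x, hxE, hx, -⟩ := ei_vh_exists d i false (w := (-(e * c)) • vg R k) (fun b => by
    rw [Pi.smul_apply, vg_apply, smul_zero])
  obtain ⟨h1, h2⟩ := t_comm hM ht hsc rfl rfl hxE hx
  have o1 : ∀ r : R, Bf d (vh R q i false) (r • vg R k) = 0 := by
    intro r
    rw [Bf_vh', Pi.smul_apply, vg_apply, smul_zero]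
  rw [hsc.h, hi, Matrix.mulVec_smul, hsc.g, hs, ei_smul, Bool.xor_false,
    smul_smul, smul_smul] at h2
  have h3 := ei_mul h2 (ei_inv hx (Qf_vh d i false) (o1 _)) (Qf_vh d i false) (o1 _) (by
    rw [Bf_neg_right, o1, neg_zero])
  have h4 : (s i * -(e * c) * -s i) • vg R k + -(-(e * c)) • vg R k =
      (2 * (e * c)) • vg (p := p) R k := by
    have h5 := sq_one (hsc.hs i)
    rw [show s i * -(e * c) * -s i = (e * c) * (s i * s i) by ring, h5, mul_one]
    module
  rw [neg_smul (-(e * c)) (vg R k)] at h4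
  rw [h4] at h3
  set X := t * x * t⁻¹ * x⁻¹ with hX
  obtain ⟨y, hyE, hy, -⟩ := ei_vh_exists d j false (w := vg R k) (fun b' => vg_apply k j b')
  have h6 := comm_mem hM h1 hyE
  have h7 := ei_conj (ei_iso h3 (Qf_vh d i false) (o1 _)) hy
  have e1 : X.1 *ᵥ vh R q j false = vh R q j false := by
    rw [h3, Bf_vh, Bf_smul_right, Bf_vg, vh_apply, vh_apply_g, if_neg (fun h => hij h.1.symm)]
    module
  have e2 : X.1 *ᵥ vg R k = vg R k + (-(4 * (d k * e) * c)) • vh R q i false := by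
    rw [h3, Bf_vh, Bf_smul_right, Bf_vg, vg_apply, vg_apply_g, if_pos rfl]
    module
  rw [e1, e2] at h7
  have o2 : Bf d (vh R q j false) (vg R k) = 0 := by rw [Bf_vh', vg_apply]
  have h8 := ei_mul h7 (ei_inv hy (Qf_vh d j false) o2) (Qf_vh d j false) (by
    rw [Bf_add_right, o2, Bf_smul_right, Bf_vh, vh_apply, if_neg (fun h => hij h.1.symm)]
    ring) (by rw [Bf_neg_right, o2, neg_zero])
  rw [add_neg_cancel_comm] at h8
  have h9 : Nn d M (vh R q j false) ((-(4 * (d k * e) * c)) • vh R q i false) := ⟨_, h6, h8⟩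
  have h10 := h9.neg (Qf_vh d j false) (by
    rw [Bf_smul_right, Bf_vh, vh_apply, if_neg (fun h => hij h.1.symm), mul_zero])
  rwa [neg_smul, neg_neg] at h10

include hM in
theorem case_two (ht : t ∈ M) (hsc : SC t s σ τ) {i j l : Fin p} (hij : i ≠ j) (hil : i ≠ l)
    (hjl : j ≠ l) (hi : σ i = true) (hj : σ j = true) (δ : R) : PP d M δ l false j true := by
  intro c
  obtain ⟨x, hxE, hx, hxi⟩ := ei_vh_exists d i false (w := (-(δ * c)) • vh R q j true) (fun b => by
    rw [Pi.smul_apply, vh_apply, if_neg (fun h => hij h.1.symm), smul_zero])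
  obtain ⟨h1, h2⟩ := t_comm hM ht hsc rfl rfl hxE hx
  set A := t * x * t⁻¹ with hA
  rw [hsc.h, hi, Matrix.mulVec_smul, hsc.h, hj, ei_smul, smul_smul, smul_smul] at h2
  have hAE : A ∈ EO (p := p) d := mem_EO h2 (fun b => by
    rw [Pi.smul_apply, vh_apply, if_neg (fun h => hij h.1.symm), smul_zero])
  obtain ⟨g, hg, hgE, hgi⟩ := ei_vh_exists d i true (w := vh R q l false) (fun b₀ => by
    rw [vh_apply, if_neg (fun h => hil h.1.symm)])
  -- `g` commutes with `A`
  have h3 := ei_conj hgi h2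
  have e1 : g.1 *ᵥ vh R q i (false ^^ true) = vh R q i (false ^^ true) := by
    rw [hgE, Bf_vh, Bf_vh, Qf_vh]
    simp [vh_apply, hil]
  have e2 : ∀ b, g.1 *ᵥ vh R q j b = vh R q j b := by
    intro b
    rw [hgE, Bf_vh, Bf_vh, Qf_vh, vh_apply, vh_apply, if_neg (fun h => hij h.1.symm),
      if_neg (fun h => hjl h.1)]
    module
  rw [e1, Matrix.mulVec_smul, e2] at h3
  have h4 : g * A * g⁻¹ = A := ei_unique h3 h2
  -- the commutator
  have h5 : g * (A * x⁻¹) * g⁻¹ * (A * x⁻¹)⁻¹ ∈ M :=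
    M.mul_mem (hM.conj g hg _ h1) (M.inv_mem h1)
  have h6 : A⁻¹ * (g * (A * x⁻¹) * g⁻¹ * (A * x⁻¹)⁻¹) * (A⁻¹)⁻¹ ∈ M :=
    hM.conj _ ((EO d).inv_mem hAE) _ h5
  have h7 : A⁻¹ * (g * (A * x⁻¹) * g⁻¹ * (A * x⁻¹)⁻¹) * (A⁻¹)⁻¹ = g * x⁻¹ * g⁻¹ * x := by
    have h8 : g * (A * x⁻¹) * g⁻¹ * (A * x⁻¹)⁻¹ = (g * A * g⁻¹) * (g * x⁻¹ * g⁻¹ * x) * A⁻¹ := by
      group
    rw [h8, h4]
    group
  rw [h7] at h6
  have o1 : ∀ r : R, Bf d (vh R q i false) (r • vh R q j true) = 0 := by
    intro r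
    rw [Bf_vh', Pi.smul_apply, vh_apply, if_neg (fun h => hij h.1.symm), smul_zero]
  have hxinv := ei_inv hx (Qf_vh d i false) (o1 _)
  rw [← neg_smul, neg_neg] at hxinv
  have h9 := ei_conj hgi hxinv
  have e3 : g.1 *ᵥ vh R q i false = vh R q i false + vh R q l false := by
    rw [hgE, Bf_vh, Bf_vh, Qf_vh]
    simp [vh_apply, hil]
  rw [e3, Matrix.mulVec_smul, e2] at h9
  obtain ⟨Y, hYE, hY, -⟩ := ei_vh_exists d l false (w := (δ * c) • vh R q j true) (fun b => by
    rw [Pi.smul_apply, vh_apply, if_neg (fun h => hjl h.1), smul_zero])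
  have h10 := ei_add (w := (δ * c) • vh R q j true) (x := 1) (y := Y) (z := x⁻¹)
    (u := vh R q i false) (u' := vh R q l false) (by
      rw [Qf_smul, Qf_vh, mul_zero, zero_smul]
      exact ei_one _) hY hxinv (Qf_vh d i false) (Qf_vh d l false) (by
      rw [Bf_vh', vh_apply, if_neg (fun h => hil h.1.symm)]) (o1 _) (by
      rw [Bf_vh', Pi.smul_apply, vh_apply, if_neg (fun h => hjl h.1), smul_zero])
  have h11 := ei_unique h9 h10
  rw [h11, one_mul, inv_mul_cancel_right] at h6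
  exact ⟨Y, h6, hY⟩

end cases

theorem third {m : ℕ} (i j : Fin (m + 3)) : ∃ l, i ≠ l ∧ j ≠ l := by
  have h : (i.val ≠ 0 ∧ j.val ≠ 0) ∨ (i.val ≠ 1 ∧ j.val ≠ 1) ∨ (i.val ≠ 2 ∧ j.val ≠ 2) := by omega
  rcases h with h | h | h
  · exact ⟨⟨0, by omega⟩, fun e => h.1 (congrArg Fin.val e), fun e => h.2 (congrArg Fin.val e)⟩
  · exact ⟨⟨1, by omega⟩, fun e => h.1 (congrArg Fin.val e), fun e => h.2 (congrArg Fin.val e)⟩
  · exact ⟨⟨2, by omega⟩, fun e => h.1 (congrArg Fin.val e), fun e => h.2 (congrArg Fin.val e)⟩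

theorem pm_ne {R : Type} [CommRing R] {a b : R} (ha : a = 1 ∨ a = -1) (hb : b = 1 ∨ b = -1)
    (h : b ≠ a) : b = -a := by
  rcases ha with rfl | rfl <;> rcases hb with rfl | rfl
  · exact absurd rfl h
  · rfl
  · rw [neg_neg]
  · exact absurd rfl h

theorem tNC : Q4.ZO.SNC := by
  classical
  intro R _ _ m q d N hN t htN htD ht1 htm x hx
  set M : Subgroup (GL (Ix (m + 3) q) R) := N.map (Ga (p := m + 3) d).subtype with hMdef
  have hM : NS d M := by
    refine ⟨?_⟩
    rintro g hg _ ⟨n, hn, rfl⟩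
    have hgG : g ∈ Ga (p := m + 3) d := (le_sup_left : EO d ≤ Ga d) hg
    exact ⟨⟨g, hgG⟩ * n * ⟨g, hgG⟩⁻¹, hN.conj_mem n hn _, rfl⟩
  have htM : t.1 ∈ M := ⟨t, htN, rfl⟩
  have htD' : t.1 ∈ Dg R (m + 3) q := htD
  obtain ⟨s, σ, τ, hsc⟩ := sc_exists htD'
  have hall : ∀ (i' : Fin (m + 3)) (c' : Bool) (j' : Fin (m + 3)) (c'' : Bool), i' ≠ j' →
      PP d M (4 * ∏ k, d k) i' c' j' c'' := by
    by_cases h1 : ∃ i, σ i = false
    · obtain ⟨i, hi⟩ := h1
      by_cases hb : ∃ j, σ j = true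
      · obtain ⟨j, hj⟩ := hb
        have hij : i ≠ j := by
          rintro rfl
          rw [hi] at hj
          exact Bool.noConfusion hj
        obtain ⟨l, hil, hjl⟩ := third i j
        exact (case_b hM htM hsc hij hil hjl hi hj _).all hM hil hij hjl.symm
      · push Not at hb
        have hσ : ∀ j, σ j = false := fun j => Bool.eq_false_iff.2 (hb j)
        by_cases ha : ∃ i j, s j ≠ s i
        · obtain ⟨i, j, hs⟩ := ha
          have hij : i ≠ j := by
            rintro rfl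
            exact hs rfl
          obtain ⟨l, hil, hjl⟩ := third i j
          have h2 := case_a hM htM hsc hij (hσ i) (hσ j) (pm_ne (hsc.hs i) (hsc.hs j) hs)
            (2 * ∏ k, d k)
          rw [show 2 * (2 * ∏ k, d k) = 4 * ∏ k, d k by ring] at h2
          exact h2.all hM hij hil hjl
        · push Not at ha
          by_cases hc : ∃ k, τ k ≠ s i
          · obtain ⟨k, hk⟩ := hc
            obtain ⟨j, hij, -⟩ := third i i
            obtain ⟨l, hil, hjl⟩ := third i j
            obtain ⟨e, he⟩ := Finset.dvd_prod_of_mem d (Finset.mem_univ k)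
            have h2 := case_c hM htM hsc hij k hi (pm_ne (hsc.hs i) (hsc.hτ k) hk) e
            rw [← he] at h2
            exact h2.all hM hij.symm hjl hil
          · push Not at hc
            exfalso
            have h2 : ∀ v, t.1.1 *ᵥ v = s i • v := by
              intro v
              funext y
              rcases ix_cases y with ⟨j, b, rfl⟩ | ⟨k, rfl⟩
              · have h3 := hsc.comp v j b
                rw [hσ, Bool.xor_false] at h3
                rw [h3, ha i j]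
                rfl
              · rw [hsc.comp_g, hc]
                rfl
            rcases hsc.hs i with h3 | h3
            · apply ht1
              apply ext_mv
              intro v
              rw [h2, h3, one_smul]
              exact (Matrix.one_mulVec v).symm
            · apply htm
              apply ext_mv
              intro v
              rw [h2, h3, neg_smul, one_smul, Units.val_neg, Matrix.neg_mulVec]
              congr 1
              exact (Matrix.one_mulVec v).symm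
    · push Not at h1
      have hσ : ∀ j, σ j = true := fun j => by
        have := h1 j
        simpa using this
      obtain ⟨j, hij, -⟩ := third (0 : Fin (m + 3)) 0
      obtain ⟨l, hil, hjl⟩ := third (0 : Fin (m + 3)) j
      exact (case_two hM htM hsc hij hil hjl (hσ _) (hσ _) _).all hM hjl.symm hil.symm hij.symm
  have hle := EEO_le hM hall (fun i => by
    obtain ⟨l, hl, -⟩ := third i i
    exact ⟨l, hl⟩)
  obtain ⟨n, hn, hnx⟩ := hle hx
  have h5 : n = x := Subtype.ext hnx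
  rw [← h5]
  exact hn

end Q150.ZO
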